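import Pool.Agent.R544.EN.Corr

/-!
# Even-nearly conservative arc weights: coNP-completeness
-/

set_option autoImplicit false

namespace Pool.Agent.R544.EN

open Pool.Agent.NPC Pool.Agent.NPC.H679 Pool.Agent.H679R2 Pool.Agent.NPC.H670R2

theorem hardPr_not : HardPr (fun I : Inst => IsDigraph I ∧ IsSymmetric I ∧ SmallIntegers I)
    (fun I : Inst => ¬ EvenNearlyConservative I) :=
  (hardPr_ham 6 le_rfl).trans poly_red
    (fun I _ => ⟨isDigraph_red I, isSymmetric_red I, smallIntegers_red I⟩)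
    fun I _ => red_correct I

/-- Hardness on symmetric digraphs with small integral weights. -/
theorem hardPr_not' : HardPr (fun I : Inst => IsDigraph I ∧ IsSymmetric I ∧ SmallIntegers I)
    (fun I : Inst => ¬ (IsSymmetric I ∧ SmallIntegers I ∧ EvenNearlyConservative I)) := by
  refine hardPr_not.trans (f := fun I => I) NPC.Poly.id (fun _ h => h) fun I h => ?_
  exact ⟨fun h' h'' => h' h''.2.2, fun h' h'' => h' ⟨h.2.1, h.2.2, h''⟩⟩

/-! ### Membership in coNP -/

theorem pp_isDigraph : PP IsDigraph := by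
  unfold IsDigraph
  refine PP.and (Pool.Agent.Y592.OP.pp_nodup (by fun_prop)) (PP.and ?_
    (Pool.Agent.Y592.OP.pp_nodup (by fun_prop)))
  refine PP.ball (l := fun I : Inst => I.2)
    (r := fun I a => a.1.1 ∈ I.1 ∧ a.1.2 ∈ I.1 ∧ a.1.1 ≠ a.1.2) (by fun_prop) ?_
  exact PP.and (PP.mem (by fun_prop) (by fun_prop)) (PP.and (PP.mem (by fun_prop) (by fun_prop))
    (PP.ne (by fun_prop) (by fun_prop)))

theorem pp_isSymmetric : PP IsSymmetric := by
  unfold IsSymmetric
  refine PP.ball (l := fun I : Inst => I.2) (r := fun I a => ∃ b ∈ I.2, b.1 = (a.1.2, a.1.1))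
    (by fun_prop) ?_
  exact PP.bex (l := fun x : Inst × ((ℕ × ℕ) × ℚ) => x.1.2)
    (r := fun x b => b.1 = (x.2.1.2, x.2.1.1)) (by fun_prop) (PP.eq (by fun_prop) (by fun_prop))

theorem rotate_one {α : Type} (l : List α) : l.rotate 1 = l.tail ++ l.head?.toList := by
  cases l <;> simp

theorem poly_rotate_one {α β : Type} [TEnc α] [TEnc β] {l : α → List β} (hl : NPC.Poly l) :
    NPC.Poly (fun a => (l a).rotate 1) := by
  refine (NPC.Poly.append (NPC.Poly.tail hl) (NPC.Poly.optElim (o := fun a => (l a).head?)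
    (g := fun _ => ([] : List β)) (h := fun _ b => [b]) (NPC.Poly.head? hl) (NPC.Poly.const _)
    (by fun_prop))).congr fun a => ?_
  rw [rotate_one]
  cases (l a).head? <;> rfl

theorem pp_isCycle : PP (fun x : Inst × List ((ℕ × ℕ) × ℚ) => IsCycle x.1.2 x.2) := by
  unfold IsCycle
  refine PP.and (PP.le (by fun_prop) (by fun_prop)) (PP.and ?_ (PP.and
    (Pool.Agent.Y592.OP.pp_nodup (by fun_prop)) (PP.eq (by fun_prop)
    (poly_rotate_one (by fun_prop)))))
  exact PP.ball (l := fun x : Inst × List ((ℕ × ℕ) × ℚ) => x.2) (r := fun x a => a ∈ x.1.2)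
    (by fun_prop) (PP.mem (by fun_prop) (by fun_prop))

theorem pp_even {α : Type} [TEnc α] {n : α → ℕ} (hn : NPC.Poly n) : PP (fun a => Even (n a)) :=
  PP.congr (p := fun a => n a % 2 = 0) (PP.eq (by fun_prop) (by fun_prop))
    fun a => Nat.even_iff.symm

/-- The test of a certificate against even-near conservativity. -/
def Ver (I : Inst) (C : List ((ℕ × ℕ) × ℚ)) : Prop :=
  ¬ IsDigraph I ∨ (IsCycle I.2 C ∧ weight C < 0 ∧ ¬ Even C.length)

theorem pp_ver : PP (fun x : Inst × List ((ℕ × ℕ) × ℚ) => Ver x.1 x.2) := by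
  unfold Ver weight
  refine PP.or (PP.not (pp_isDigraph.comp (by fun_prop))) (PP.and pp_isCycle (PP.and
    (pp_sum_neg (by fun_prop)) (PP.not (pp_even (by fun_prop)))))

theorem ver_of {I : Inst} (h : ¬ EvenNearlyConservative I) :
    ∃ C : List ((ℕ × ℕ) × ℚ), sz C ≤ (Polynomial.X * (Polynomial.X + 1) + 1 :
      Polynomial ℕ).eval (sz I) ∧ Ver I C := by
  by_cases hD : IsDigraph I
  · have h1 : ¬ ∀ C, IsCycle I.2 C → weight C < 0 → Even C.length := fun h' => h ⟨hD, h'⟩
    push Not at h1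
    obtain ⟨C, h2, h3, h4⟩ := h1
    refine ⟨C, ?_, Or.inr ⟨h2, h3, h4⟩⟩
    have h5 : C.length ≤ I.2.length :=
      length_le_of_nodup_subset (List.Nodup.of_map _ h2.2.2.1) h2.2.1
    have h6 : sz I = sz I.1 + sz I.2 + 1 := sz_pair I.1 I.2
    have h7 := sz_le_length_mul C (sz I) (fun a ha => by
      have := sz_le_of_mem (h2.2.1 a ha)
      omega)
    have h8 := length_lt_sz I.2
    simp only [Polynomial.eval_add, Polynomial.eval_mul, Polynomial.eval_X,
      Polynomial.eval_one]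
    exact h7.trans (Nat.add_le_add_right (Nat.mul_le_mul_right _ (by omega)) 1)
  · refine ⟨[], ?_, Or.inl hD⟩
    simp

theorem of_ver {I : Inst} {C : List ((ℕ × ℕ) × ℚ)} (h : Ver I C) : ¬ EvenNearlyConservative I := by
  rintro ⟨h1, h2⟩
  rcases h with h | ⟨h3, h4, h5⟩
  · exact h h1
  · exact h5 (h2 C h3 h4)

theorem inCoNPP_of_pp {α β : Type} [TEnc α] [TEnc β] [TDec α] [TDec β] {P : α → Prop}
    {R : α → β → Prop} (hR : PP (fun x : α × β => R x.1 x.2)) (p : Polynomial ℕ)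
    (h1 : ∀ a, ¬ P a → ∃ w : β, sz w ≤ p.eval (sz a) ∧ R a w) (h2 : ∀ a w, R a w → ¬ P a) :
    InCoNPP P := by
  obtain ⟨b, hb, hb'⟩ := hR
  refine inCoNPP_of hb p fun a => ⟨fun ha => ?_, ?_⟩
  · obtain ⟨w, hw, hw'⟩ := h1 a ha
    exact ⟨w, hw, (hb' (a, w)).2 hw'⟩
  · rintro ⟨w, _, hw⟩
    exact h2 a w ((hb' (a, w)).1 hw)

theorem inCoNPP_en : InCoNPP EvenNearlyConservative :=
  inCoNPP_of_pp pp_ver _ (fun _ h => ver_of h) fun _ _ h => of_ver h

end Pool.Agent.R544.EN
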