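import Pool.Agent.R544.EN.Red

/-!
# Even-nearly conservative arc weights: correctness of the reduction
-/

set_option autoImplicit false

namespace Pool.Agent.R544.EN

open Pool.Agent.NPC Pool.Agent.NPC.H679 Pool.Agent.H679R2

/-- tail -/
def tl (a : (ℕ × ℕ) × ℚ) : ℕ := a.1.1

/-- head -/
def hd (a : (ℕ × ℕ) × ℚ) : ℕ := a.1.2

theorem isCycle_iff (A C : List ((ℕ × ℕ) × ℚ)) : IsCycle A C ↔ 2 ≤ C.length ∧ (∀ a ∈ C, a ∈ A) ∧
    (C.map tl).Nodup ∧ C.map hd = (C.map tl).rotate 1 := Iff.rfl

theorem cyb_iff (I : GI) (w : List ℕ) : cyb I w = true ↔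
    w.IsChain (fun u v => adjb I u v = true) ∧ 4 ≤ w.length ∧ w.head? = w.reverse.head? ∧
      w.tail.Nodup ∧ (∀ v ∈ I.1, v ∈ w) ∧ ∀ v ∈ w, v ∈ I.1 := by
  simp only [cyb, Bool.and_eq_true, decide_eq_true_eq, List.all_eq_true, chb_iff, ndb_iff]

theorem ham_of_cyb {I : GI} {w : List ℕ} (h : cyb I w = true) : HasHamCycle I := by
  refine (ham_iff I).2 ⟨w, ?_, h⟩
  obtain ⟨_, _, _, hnd, _, hmem⟩ := (cyb_iff I w).1 h
  have hlen : w.tail.length ≤ I.1.length :=
    length_le_of_nodup_subset hnd fun v hv => hmem v (List.mem_of_mem_tail hv)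
  have h4 := sz_le_length_mul w (sz I) (fun v hv => by
    have h5 := sz_le_of_mem (hmem v hv)
    have h6 : sz I = sz I.1 + sz I.2 + 1 := sz_pair I.1 I.2
    omega)
  have h5 := length_lt_sz I.1
  have h6 : sz I = sz I.1 + sz I.2 + 1 := sz_pair I.1 I.2
  have h7 : w.length ≤ sz I + 2 := by
    rw [List.length_tail] at hlen
    omega
  simp only [Polynomial.eval_add, Polynomial.eval_mul, Polynomial.eval_X,
    Polynomial.eval_ofNat, Polynomial.eval_one]
  exact h4.trans (Nat.add_le_add_right (Nat.mul_le_mul_right _ h7) 1)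

/-! ### From Hamiltonian cycles to odd negative cycles -/

/-- The arcs for one step of a walk. -/
def stepA (I : GI) (u v : ℕ) : List ((ℕ × ℕ) × ℚ) :=
  if u = sp I then [((2 * u, 2 * v), ((wW I : ℕ) : ℚ))]
  else [((2 * u, mid u v), -2), ((mid u v, 2 * v), 0)]

/-- The arcs for a walk. -/
def walkA (I : GI) : List ℕ → List ((ℕ × ℕ) × ℚ)
  | [] => []
  | [_] => []
  | u :: v :: l => stepA I u v ++ walkA I (v :: l)

theorem walkA_tails (I : GI) : ∀ (l : List ℕ) (u : ℕ),
    (walkA I (u :: l)).map tl ++ [2 * (u :: l).getLast (by simp)] =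
      2 * u :: (walkA I (u :: l)).map hd
  | [], u => by simp [walkA]
  | v :: l, u => by
    have ih := walkA_tails I l v
    rw [List.getLast_cons (by simp)]
    simp only [walkA, List.map_append, List.append_assoc]
    rw [ih]
    unfold stepA
    split_ifs <;> simp [tl, hd]

theorem mem_walkA (I : GI) : ∀ (w : List ℕ), w.IsChain (fun u v => adjb I u v = true) →
    (∀ v ∈ w, v ∈ I.1) → ∀ a ∈ walkA I w, a ∈ rA I
  | [], _, _, a, ha => by simp [walkA] at ha
  | [u], _, _, a, ha => by simp [walkA] at ha
  | u :: v :: l, hc, hm, a, ha => by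
    rw [List.isChain_cons_cons] at hc
    simp only [walkA, List.mem_append] at ha
    rcases ha with ha | ha
    · have hp : (u, v) ∈ prs I := mem_prs.2 ⟨hm u (by simp), hm v (by simp), hc.1⟩
      unfold stepA at ha
      split_ifs at ha with hs
      · simp only [List.mem_cons, List.not_mem_nil, or_false] at ha
        exact mem_rA.2 (Or.inr ⟨(u, v), mem_prs2.2 ⟨hp, hs⟩, Or.inl ha⟩)
      · simp only [List.mem_cons, List.not_mem_nil, or_false] at ha
        have hp' := mem_prs1.2 ⟨hp, hs⟩
        rcases ha with ha | ha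
        · exact mem_rA.2 (Or.inl ⟨(u, v), hp', Or.inl ha⟩)
        · exact mem_rA.2 (Or.inl ⟨(u, v), hp', Or.inr (Or.inl ha)⟩)
    · exact mem_walkA I (v :: l) hc.2 (fun x hx => hm x (List.mem_cons_of_mem _ hx)) a ha

theorem tails_walkA (I : GI) : ∀ (w : List ℕ) (x : ℕ), x ∈ (walkA I w).map tl →
    ∃ u ∈ w.dropLast, x = 2 * u ∨ ∃ v, x = mid u v
  | [], x, hx => by simp [walkA] at hx
  | [u], x, hx => by simp [walkA] at hx
  | u :: v :: l, x, hx => by
    simp only [walkA, List.map_append, List.mem_append] at hx
    rcases hx with hx | hx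
    · refine ⟨u, by simp, ?_⟩
      unfold stepA at hx
      split_ifs at hx with hs <;>
        simp only [tl, List.map_cons, List.map_nil, List.mem_cons, List.not_mem_nil,
          or_false] at hx
      · exact Or.inl hx
      · rcases hx with hx | hx
        · exact Or.inl hx
        · exact Or.inr ⟨v, hx⟩
    · obtain ⟨u', hu', h⟩ := tails_walkA I (v :: l) x hx
      refine ⟨u', ?_, h⟩
      simp only [List.dropLast_cons_cons, List.mem_cons]
      exact Or.inr hu'

theorem nodup_walkA (I : GI) : ∀ (w : List ℕ), w.dropLast.Nodup → ((walkA I w).map tl).Nodup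
  | [], _ => by simp [walkA]
  | [u], _ => by simp [walkA]
  | u :: v :: l, h => by
    rw [List.dropLast_cons_cons, List.nodup_cons] at h
    have ih := nodup_walkA I (v :: l) h.2
    simp only [walkA, List.map_append]
    rw [List.nodup_append']
    refine ⟨?_, ih, ?_⟩
    · unfold stepA
      have := mid_odd u v
      split_ifs
      · simp
      · simp only [tl, List.map_cons, List.map_nil, List.nodup_cons, List.mem_cons,
          List.not_mem_nil, or_false, not_false_eq_true, List.nodup_nil, and_true]
        omega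
    · intro x hx hx'
      obtain ⟨u', hu', h'⟩ := tails_walkA I (v :: l) x hx'
      have hne : u ≠ u' := fun he => h.1 (he ▸ hu')
      have h1 : x = 2 * u ∨ x = mid u v := by
        unfold stepA at hx
        split_ifs at hx <;>
          simp only [tl, List.map_cons, List.map_nil, List.mem_cons, List.not_mem_nil,
            or_false] at hx
        · exact Or.inl hx
        · exact hx
      have h2 := mid_odd u v
      rcases h1 with rfl | rfl
      · rcases h' with h' | ⟨v', h'⟩
        · omega
        · have := mid_odd u' v'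
          omega
      · rcases h' with h' | ⟨v', h'⟩
        · omega
        · exact hne (mid_inj h').1

theorem weight_walkA (I : GI) : ∀ (w : List ℕ), weight (walkA I w) =
    (w.dropLast.map (fun u => if u = sp I then ((wW I : ℕ) : ℚ) else -2)).sum
  | [] => by simp [walkA, weight]
  | [u] => by simp [walkA, weight]
  | u :: v :: l => by
    have ih := weight_walkA I (v :: l)
    simp only [walkA, weight, List.map_append, List.sum_append, List.dropLast_cons_cons,
      List.map_cons, List.sum_cons] at ih ⊢
    rw [ih]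
    unfold stepA
    split_ifs <;> simp

theorem length_walkA (I : GI) : ∀ (w : List ℕ), (walkA I w).length =
    (w.dropLast.map (fun u => if u = sp I then 1 else 2)).sum
  | [] => by simp [walkA]
  | [u] => by simp [walkA]
  | u :: v :: l => by
    have ih := length_walkA I (v :: l)
    simp only [walkA, List.length_append, List.dropLast_cons_cons,
      List.map_cons, List.sum_cons] at ih ⊢
    rw [ih]
    unfold stepA
    split_ifs <;> simp

theorem sum_ite {M : Type} [AddCommMonoid M] {L : List ℕ} {s : ℕ} (hn : L.Nodup) (hs : s ∈ L)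
    (a b : M) : (L.map (fun u => if u = s then a else b)).sum = a + (L.length - 1) • b := by
  have h1 := List.perm_cons_erase hs
  rw [(h1.map _).sum_eq, List.map_cons, List.sum_cons, if_pos rfl]
  congr 1
  have h2 : (L.erase s).map (fun u => if u = s then a else b) = (L.erase s).map (fun _ => b) := by
    apply List.map_congr_left
    intro u hu
    rw [if_neg]
    rintro rfl
    exact hn.not_mem_erase hu
  rw [h2, List.map_const', List.sum_replicate, List.length_erase_of_mem hs]

theorem sp_mem {I : GI} (h : 1 ≤ (vd I).length) : sp I ∈ I.1 := by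
  unfold sp
  unfold vd at h
  cases hI : I.1 with
  | nil => rw [hI] at h; simp at h
  | cons a l => simp

theorem length_vd {I : GI} {l : List ℕ} (hn : l.Nodup) (h : ∀ v, v ∈ l ↔ v ∈ I.1) :
    l.length = (vd I).length := by
  refine List.Perm.length_eq ((List.perm_ext_iff_of_nodup hn (List.nodup_dedup _)).2 fun v => ?_)
  rw [h, ← mem_vd]
  rfl

theorem forward {I : GI} {w : List ℕ} (hn : 3 ≤ (vd I).length) (h : cyb I w = true) :
    ∃ C, IsCycle (rA I) C ∧ weight C < 0 ∧ ¬ Even C.length := by
  obtain ⟨hc, hlen, hcl, hnd, hall, hm⟩ := (cyb_iff I w).1 h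
  obtain ⟨u, t, rfl⟩ : ∃ u t, w = u :: t := by
    cases w with
    | nil => simp at hlen
    | cons u t => exact ⟨u, t, rfl⟩
  have ht : t ≠ [] := by rintro rfl; simp at hlen
  have hlast : (u :: t).getLast (by simp) = u := by
    rw [List.head?_reverse] at hcl
    rw [List.getLast?_eq_some_getLast (by simp : u :: t ≠ [])] at hcl
    simpa using hcl.symm
  have hlast' : t.getLast ht = u := by rw [← hlast, List.getLast_cons ht]
  simp only [List.tail_cons] at hnd
  have htd : t = t.dropLast ++ [u] := by
    conv_lhs => rw [← List.dropLast_append_getLast ht, hlast']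
  have hperm : (u :: t).dropLast.Perm t := by
    rw [List.dropLast_cons_of_ne_nil ht]
    conv_rhs => rw [htd]
    exact (List.perm_append_singleton u t.dropLast).symm
  have hdn : (u :: t).dropLast.Nodup := hperm.nodup_iff.2 hnd
  have hmem : ∀ v, v ∈ (u :: t).dropLast ↔ v ∈ I.1 := by
    intro v
    rw [hperm.mem_iff]
    constructor
    · intro hv; exact hm v (List.mem_cons_of_mem _ hv)
    · intro hv
      rcases List.mem_cons.1 (hall v hv) with rfl | h'
      · rw [htd]; simp
      · exact h'
  have hL := length_vd hdn hmem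
  have hs : sp I ∈ (u :: t).dropLast := (hmem _).2 (sp_mem (by omega))
  refine ⟨walkA I (u :: t), ?_, ?_, ?_⟩
  · have h1 := walkA_tails I t u
    rw [hlast] at h1
    have h2 : 2 ≤ (walkA I (u :: t)).length := by
      rw [length_walkA, sum_ite hdn hs, hL]
      simp only [smul_eq_mul]
      omega
    refine (isCycle_iff _ _).2 ⟨h2, mem_walkA I _ hc hm, nodup_walkA I _ hdn, ?_⟩
    cases hw : walkA I (u :: t) with
    | nil => rw [hw] at h2; simp at h2
    | cons a l =>
      rw [hw] at h1
      simp only [List.map_cons, List.cons_append, List.cons.injEq] at h1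
      simp only [List.map_cons, List.rotate_cons_succ, List.rotate_zero]
      rw [h1.1]
      exact h1.2.symm
  · rw [weight_walkA, sum_ite hdn hs, hL]
    have hW : ((wW I : ℕ) : ℚ) = 2 * ((vd I).length : ℚ) - 3 := by
      unfold wW
      rw [Nat.cast_sub (by omega)]
      push_cast
      ring
    rw [hW, nsmul_eq_mul, Nat.cast_sub (by omega)]
    push_cast
    linarith
  · rw [length_walkA, sum_ite hdn hs, hL]
    simp only [smul_eq_mul]
    rw [Nat.not_even_iff_odd]
    exact ⟨(vd I).length - 1, by ring⟩

/-! ### From odd negative cycles to Hamiltonian cycles -/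

/-- An arc of the first kind. -/
def r1 (p : ℕ × ℕ) : (ℕ × ℕ) × ℚ := ((2 * p.1, mid p.1 p.2), -2)

/-- An arc of the second kind. -/
def r2 (p : ℕ × ℕ) : (ℕ × ℕ) × ℚ := ((mid p.1 p.2, 2 * p.2), 0)

theorem mem_rA' {I : GI} {a : (ℕ × ℕ) × ℚ} (ha : a ∈ rA I) :
    (∃ p ∈ prs1 I, a = r1 p ∨ a = r2 p) ∨
    (∃ p ∈ prs2 I, a = ((2 * p.1, 2 * p.2), ((wW I : ℕ) : ℚ))) ∨ a.2 = ((wM I : ℕ) : ℚ) := by
  rcases mem_rA.1 ha with ⟨p, hp, h⟩ | ⟨p, hp, h⟩
  · rcases h with h | h | h | h
    · exact Or.inl ⟨p, hp, Or.inl h⟩
    · exact Or.inl ⟨p, hp, Or.inr h⟩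
    · exact Or.inr (Or.inr (by rw [h]))
    · exact Or.inr (Or.inr (by rw [h]))
  · rcases h with h | h
    · exact Or.inr (Or.inl ⟨p, hp, h⟩)
    · exact Or.inr (Or.inr (by rw [h]))

/-- The correction term. -/
def corr (I : GI) (a : (ℕ × ℕ) × ℚ) : Bool := decide (tl a % 2 = 0 ∧ tl a ≠ 2 * sp I)

theorem g_nonneg {I : GI} {a : (ℕ × ℕ) × ℚ} (ha : a ∈ rA I) :
    0 ≤ a.2 + (if corr I a then 2 else 0) := by
  rcases mem_rA' ha with ⟨p, hp, rfl | rfl⟩ | ⟨p, hp, rfl⟩ | h
  · have h1 := (mem_prs1.1 hp).2
    have : corr I (r1 p) = true := by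
      simp only [corr, tl, r1, decide_eq_true_eq]
      exact ⟨by omega, fun h => h1 (by omega)⟩
    rw [this]
    simp [r1]
  · have : (0 : ℚ) ≤ (if corr I (r2 p) = true then 2 else 0) := by split_ifs <;> norm_num
    simpa [r2] using this
  · have : (0 : ℚ) ≤ (if corr I ((2 * p.1, 2 * p.2), ((wW I : ℕ) : ℚ)) = true then 2 else 0) := by
      split_ifs <;> norm_num
    have h2 : (0 : ℚ) ≤ ((wW I : ℕ) : ℚ) := by positivity
    simp only
    linarith
  · rw [h]
    have : (0 : ℚ) ≤ (if corr I a = true then 2 else 0) := by split_ifs <;> norm_num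
    have h2 : (0 : ℚ) ≤ ((wM I : ℕ) : ℚ) := by positivity
    linarith

theorem sum_corr (I : GI) (C : List ((ℕ × ℕ) × ℚ)) :
    (C.map (fun a => a.2 + (if corr I a then 2 else 0))).sum =
      weight C + 2 * ((C.countP (corr I) : ℕ) : ℚ) := by
  induction C with
  | nil => simp [weight]
  | cons a C ih =>
    simp only [List.map_cons, List.sum_cons, ih, weight, List.countP_cons]
    split_ifs <;> push_cast <;> ring

theorem count_corr {I : GI} {C : List ((ℕ × ℕ) × ℚ)} (hn : 1 ≤ (vd I).length)
    (hC : ∀ a ∈ C, a ∈ rA I) (hnd : (C.map tl).Nodup) : C.countP (corr I) + 1 ≤ (vd I).length := by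
  have h1 : C.countP (corr I) = ((C.map tl).filter (fun x => decide (x % 2 = 0 ∧ x ≠ 2 * sp I))).length := by
    rw [List.countP_eq_length_filter, List.filter_map, List.length_map]
    rfl
  have hs : sp I ∈ vd I := mem_vd.2 (sp_mem hn)
  have h2 : ((C.map tl).filter (fun x => decide (x % 2 = 0 ∧ x ≠ 2 * sp I))).length ≤
      (((vd I).erase (sp I)).map (fun v => 2 * v)).length := by
    refine length_le_of_nodup_subset (hnd.filter _) fun x hx => ?_
    simp only [List.mem_filter, List.mem_map, decide_eq_true_eq] at hx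
    obtain ⟨⟨a, ha, rfl⟩, h3, h4⟩ := hx
    have h5 := ((isDigraph_r I).2.1 a (hC a ha)).1
    simp only at h5
    rcases mem_rV.1 h5 with ⟨v, hv, h6⟩ | ⟨p, hp, h6⟩
    · rw [List.mem_map]
      refine ⟨v, ?_, h6.symm⟩
      rw [(show (vd I).Nodup from List.nodup_dedup _).mem_erase_iff]
      refine ⟨?_, mem_vd.2 hv⟩
      rintro rfl
      exact h4 h6
    · have := mid_odd p.1 p.2
      unfold tl at h3
      omega
  rw [List.length_map, List.length_erase_of_mem hs] at h2
  omega

theorem all_real {I : GI} {C : List ((ℕ × ℕ) × ℚ)} (hn : 1 ≤ (vd I).length)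
    (hC : ∀ a ∈ C, a ∈ rA I) (hnd : (C.map tl).Nodup) (hw : weight C < 0) :
    ∀ a ∈ C, (∃ p ∈ prs1 I, a = r1 p ∨ a = r2 p) ∨
      (∃ p ∈ prs2 I, a = ((2 * p.1, 2 * p.2), ((wW I : ℕ) : ℚ))) := by
  intro a ha
  rcases mem_rA' (hC a ha) with h | h | h
  · exact Or.inl h
  · exact Or.inr h
  · exfalso
    have h1 := sum_corr I C
    have h2 := count_corr hn hC hnd
    have h3 : a.2 + (if corr I a then 2 else 0) ≤
        (C.map (fun a => a.2 + (if corr I a then 2 else 0))).sum := by
      refine List.single_le_sum ?_ _ (List.mem_map.2 ⟨a, ha, rfl⟩)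
      intro x hx
      obtain ⟨b, hb, rfl⟩ := List.mem_map.1 hx
      exact g_nonneg (hC b hb)
    have h4 : (0 : ℚ) ≤ (if corr I a = true then 2 else 0) := by split_ifs <;> norm_num
    have h5 : ((wM I : ℕ) : ℚ) = 2 * ((vd I).length : ℚ) := by unfold wM; push_cast; ring
    have h6 : ((C.countP (corr I) : ℕ) : ℚ) + 1 ≤ ((vd I).length : ℚ) := by exact_mod_cast h2
    rw [h1] at h3
    rw [h, h5] at h3
    linarith

theorem even_of_flip {C : List ((ℕ × ℕ) × ℚ)} (h : C.map hd = (C.map tl).rotate 1)
    (hf : ∀ a ∈ C, (hd a % 2 = 0 ↔ ¬ tl a % 2 = 0)) : Even C.length := by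
  have h1 : (C.map hd).countP (fun x => decide (x % 2 = 0)) =
      (C.map tl).countP (fun x => decide (x % 2 = 0)) := by
    rw [h]
    exact (List.rotate_perm _ 1).countP_eq _
  rw [List.countP_map, List.countP_map] at h1
  have h2 := List.length_eq_countP_add_countP (l := C) (fun a => decide (tl a % 2 = 0))
  have h3 : C.countP (fun a => decide ¬ decide (tl a % 2 = 0) = true) =
      C.countP ((fun x => decide (x % 2 = 0)) ∘ hd) := by
    apply List.countP_congr
    intro a ha
    simp only [decide_eq_true_eq, Function.comp_apply]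
    exact (hf a ha).symm
  rw [h3, h1] at h2
  refine ⟨C.countP (fun a => decide (tl a % 2 = 0)), ?_⟩
  exact h2

theorem decode (I : GI) : ∀ (n : ℕ) (P : List ((ℕ × ℕ) × ℚ)) (v : ℕ), P.length ≤ n →
    2 * v :: P.map hd = P.map tl ++ [2 * sp I] →
    (∀ a ∈ P, ∃ p ∈ prs1 I, a = r1 p ∨ a = r2 p) → v ∈ I.1 →
    ∃ l : List ℕ, (v :: l).IsChain (fun u v => adjb I u v = true) ∧
      (v :: l).getLast (by simp) = sp I ∧ weight P = -2 * (l.length : ℚ) ∧
      ((v :: l).dropLast.map (fun u => 2 * u)).Sublist (P.map tl) ∧ ∀ x ∈ v :: l, x ∈ I.1 := by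
  intro n
  induction n with
  | zero =>
    intro P v hP h _ hv
    have : P = [] := List.eq_nil_of_length_eq_zero (by omega)
    subst this
    simp only [List.map_nil, List.nil_append, List.cons.injEq, and_true] at h
    have : v = sp I := by omega
    exact ⟨[], by simp, by simp [this], by simp [weight], by simp, by simp [hv]⟩
  | succ n ih =>
    intro P v hP h hr hv
    cases P with
    | nil =>
      simp only [List.map_nil, List.nil_append, List.cons.injEq, and_true] at h
      have : v = sp I := by omega
      exact ⟨[], by simp, by simp [this], by simp [weight], by simp, by simp [hv]⟩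
    | cons a P =>
      simp only [List.map_cons, List.cons_append, List.cons.injEq] at h
      obtain ⟨h1, h2⟩ := h
      obtain ⟨p, hp, rfl | rfl⟩ := hr a (by simp)
      · have hpv : p.1 = v := by simp only [tl, r1] at h1; omega
        have hp' := mem_prs.1 (mem_prs1.1 hp).1
        cases P with
        | nil =>
          simp only [List.map_nil, List.nil_append, List.cons.injEq, and_true] at h2
          have := mid_odd p.1 p.2
          simp only [hd, r1] at h2
          omega
        | cons b P =>
          simp only [List.map_cons, List.cons_append, List.cons.injEq] at h2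
          obtain ⟨h3, h4⟩ := h2
          obtain ⟨q, hq, rfl | rfl⟩ := hr b (by simp)
          · exfalso
            have := mid_odd p.1 p.2
            simp only [hd, tl, r1] at h3
            omega
          · have hqp : p.1 = q.1 ∧ p.2 = q.2 := by
              simp only [hd, tl, r1, r2] at h3
              exact mid_inj h3
            have hh : hd (r2 q) = 2 * p.2 := by simp [hd, r2, hqp.2]
            rw [hh] at h4
            obtain ⟨l, g1, g2, g3, g4, g5⟩ := ih P p.2 (by simp at hP; omega) h4
              (fun a ha => hr a (by simp [ha])) hp'.2.1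
            refine ⟨p.2 :: l, ?_, ?_, ?_, ?_, ?_⟩
            · rw [List.isChain_cons_cons]
              exact ⟨by rw [← hpv]; exact hp'.2.2, g1⟩
            · rw [List.getLast_cons (by simp)]
              exact g2
            · simp only [weight, List.map_cons, List.sum_cons, List.length_cons] at g3 ⊢
              rw [g3]
              simp only [r1, r2]
              push_cast
              ring
            · rw [List.dropLast_cons_cons, List.map_cons, List.map_cons, List.map_cons]
              have : tl (r1 p) = 2 * v := by simp [tl, r1, hpv]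
              rw [this]
              exact (g4.cons _).cons_cons _
            · intro x hx
              rcases List.mem_cons.1 hx with rfl | hx
              · exact hv
              · exact g5 x hx
      · exfalso
        have := mid_odd p.1 p.2
        simp only [tl, r2] at h1
        omega

theorem isCycle_rotate {A C : List ((ℕ × ℕ) × ℚ)} (h : IsCycle A C) (k : ℕ) :
    IsCycle A (C.rotate k) := by
  obtain ⟨h1, h2, h3, h4⟩ := (isCycle_iff _ _).1 h
  refine (isCycle_iff _ _).2 ⟨by simpa using h1, ?_, ?_, ?_⟩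
  · intro a ha
    exact h2 a (List.mem_rotate.1 ha)
  · rw [List.map_rotate]
    exact List.nodup_rotate.2 h3
  · rw [List.map_rotate, List.map_rotate, h4, List.rotate_rotate, List.rotate_rotate,
      Nat.add_comm]

theorem backward {I : GI} (hn : 3 ≤ (vd I).length) {C : List ((ℕ × ℕ) × ℚ)}
    (hC : IsCycle (rA I) C) (hw : weight C < 0) (hodd : ¬ Even C.length) :
    ∃ w, cyb I w = true := by
  have hs : ∃ a ∈ C, tl a = 2 * sp I := by
    by_contra hne
    push Not at hne
    obtain ⟨h1, h2, h3, h4⟩ := (isCycle_iff _ _).1 hC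
    refine hodd (even_of_flip h4 fun a ha => ?_)
    rcases all_real (by omega) h2 h3 hw a ha with ⟨p, hp, rfl | rfl⟩ | ⟨p, hp, rfl⟩
    · have := mid_odd p.1 p.2
      simp only [hd, tl, r1]
      omega
    · have := mid_odd p.1 p.2
      simp only [hd, tl, r2]
      omega
    · exfalso
      have h5 := (mem_prs2.1 hp).2
      exact hne _ ha (by simp [tl, h5])
  obtain ⟨a, ha, hta⟩ := hs
  obtain ⟨l1, l2, rfl⟩ := List.append_of_mem ha
  have hC' := isCycle_rotate hC l1.length
  have hperm := List.rotate_perm (l1 ++ a :: l2) l1.length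
  have hw' : weight ((l1 ++ a :: l2).rotate l1.length) < 0 := by
    unfold weight
    rw [(hperm.map _).sum_eq]
    exact hw
  rw [List.rotate_append_length_eq] at hC' hw'
  generalize hP : l2 ++ l1 = P at hC' hw'
  have hCP : a :: l2 ++ l1 = a :: P := by rw [← hP]; rfl
  rw [hCP] at hC' hw'
  obtain ⟨h1, h2, h3, h4⟩ := (isCycle_iff _ _).1 hC'
  have hreal := all_real (by omega) h2 h3 hw'
  simp only [List.map_cons, List.rotate_cons_succ, List.rotate_zero, hta] at h4
  simp only [List.map_cons, List.nodup_cons, hta] at h3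
  rcases hreal a (by simp) with ⟨p, hp, rfl | rfl⟩ | ⟨p, hp, rfl⟩
  · exfalso
    have := (mem_prs1.1 hp).2
    simp only [tl, r1] at hta
    omega
  · exfalso
    have := mid_odd p.1 p.2
    simp only [tl, r2] at hta
    omega
  · have hp' := mem_prs.1 (mem_prs2.1 hp).1
    have hps := (mem_prs2.1 hp).2
    obtain ⟨l, g1, g2, g3, g4, g5⟩ := decode I P.length P p.2 le_rfl (by
      simpa [hd] using h4) (fun b hb => by
        rcases hreal b (by simp [hb]) with h | ⟨q, hq, rfl⟩
        · exact h
        · exfalso
          apply h3.1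
          rw [List.mem_map]
          exact ⟨_, hb, by simp [tl, (mem_prs2.1 hq).2]⟩) hp'.2.1
    have hdrop : (p.2 :: l) = (p.2 :: l).dropLast ++ [sp I] := by
      conv_lhs => rw [← List.dropLast_append_getLast (by simp : p.2 :: l ≠ []), g2]
    have hnd : (p.2 :: l).Nodup := by
      rw [hdrop, List.nodup_append']
      refine ⟨?_, by simp, ?_⟩
      · have := h3.2.sublist g4
        exact List.Nodup.of_map _ this
      · intro x hx hx'
        simp only [List.mem_cons, List.not_mem_nil, or_false] at hx'
        subst hx'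
        exact h3.1 (g4.subset (List.mem_map.2 ⟨_, hx, rfl⟩))
    have hlen : (vd I).length ≤ (p.2 :: l).length := by
      have hW : ((wW I : ℕ) : ℚ) = 2 * ((vd I).length : ℚ) - 3 := by
        unfold wW
        rw [Nat.cast_sub (by omega)]
        push_cast
        ring
      have h5 : weight (((2 * p.1, 2 * p.2), ((wW I : ℕ) : ℚ)) :: P) =
          ((wW I : ℕ) : ℚ) + weight P := by simp [weight]
      rw [h5, g3, hW] at hw'
      have h6 : (2 * ((vd I).length : ℚ)) < 2 * (l.length : ℚ) + 3 := by linarith
      have h7 : 2 * (vd I).length < 2 * l.length + 3 := by exact_mod_cast h6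
      simp only [List.length_cons]
      omega
    have hsub : ∀ v ∈ (p.2 :: l), v ∈ vd I := fun v hv => mem_vd.2 (g5 v hv)
    have hperm2 : (p.2 :: l).Perm (vd I) := (hnd.subperm hsub).perm_of_length_le hlen
    refine ⟨sp I :: p.2 :: l, (cyb_iff _ _).2 ⟨?_, ?_, ?_, ?_, ?_, ?_⟩⟩
    · rw [List.isChain_cons_cons]
      exact ⟨by rw [← hps]; exact hp'.2.2, g1⟩
    · simp only [List.length_cons] at hlen ⊢
      omega
    · rw [List.head?_reverse, List.getLast?_eq_some_getLast (by simp),
        List.getLast_cons (by simp), g2]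
      rfl
    · simpa using hnd
    · intro v hv
      exact List.mem_cons_of_mem _ (hperm2.mem_iff.2 (mem_vd.2 hv))
    · intro v hv
      rcases List.mem_cons.1 hv with rfl | hv
      · exact sp_mem (by omega)
      · exact g5 v hv

theorem red_correct (I : GI) : HasHamCycle I ↔ ¬ EvenNearlyConservative (red I) := by
  unfold red
  split_ifs with hn
  · refine iff_of_false ?_ ?_
    · intro h
      obtain ⟨w, _, hw⟩ := (ham_iff I).1 h
      obtain ⟨_, hlen, _, hnd, _, hm⟩ := (cyb_iff I w).1 hw
      have h1 : w.tail.length ≤ (vd I).length :=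
        length_le_of_nodup_subset hnd fun v hv => mem_vd.2 (hm v (List.mem_of_mem_tail hv))
      rw [List.length_tail] at h1
      omega
    · rw [not_not]
      refine ⟨⟨by simp, by simp, by simp⟩, ?_⟩
      intro C hC _
      have h1 := hC.1
      have h2 := hC.2.1
      cases C with
      | nil => simp at h1
      | cons a C => exact absurd (h2 a (by simp)) (by simp)
  · push Not at hn
    constructor
    · intro h
      obtain ⟨w, _, hw⟩ := (ham_iff I).1 h
      obtain ⟨C, h1, h2, h3⟩ := forward hn hw
      intro h4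
      exact h3 (h4.2 C h1 h2)
    · intro h
      have h1 : ¬ ∀ C, IsCycle (rA I) C → weight C < 0 → Even C.length := fun h' =>
        h ⟨isDigraph_r I, h'⟩
      push Not at h1
      obtain ⟨C, h2, h3, h4⟩ := h1
      obtain ⟨w, hw⟩ := backward hn h2 h3 h4
      exact ham_of_cyb hw

end Pool.Agent.R544.EN
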