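import Mathlib

/-!
# Even-nearly conservative arc weights: the problem
-/

namespace Pool.Agent.R544.EN

/-- A weighted digraph: the list of the vertices and the list of the arcs with their weights
(`((u, v), c)` is an arc from `u` to `v` of weight `c`). -/
abbrev Inst : Type := List ℕ × List ((ℕ × ℕ) × ℚ)

/-- `I` describes a weighted digraph without loops (and without parallel arcs; opposite arcs are
allowed). -/
def IsDigraph (I : Inst) : Prop :=
  I.1.Nodup ∧ (∀ a ∈ I.2, a.1.1 ∈ I.1 ∧ a.1.2 ∈ I.1 ∧ a.1.1 ≠ a.1.2) ∧ (I.2.map Prod.fst).Nodup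

/-- `C` is the list of the arcs of a directed cycle, in the order of the cycle: it has at least two
arcs, the tails are different vertices, and the head of each arc is the tail of the next one (the
list of the heads is the list of the tails, rotated by one). -/
def IsCycle (A C : List ((ℕ × ℕ) × ℚ)) : Prop :=
  2 ≤ C.length ∧ (∀ a ∈ C, a ∈ A) ∧ (C.map (fun a => a.1.1)).Nodup ∧
    C.map (fun a => a.1.2) = (C.map (fun a => a.1.1)).rotate 1

/-- The weight of a list of arcs. -/
def weight (C : List ((ℕ × ℕ) × ℚ)) : ℚ := (C.map Prod.snd).sum

/-- The weight function is even-nearly conservative: every negative cycle has an even number of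
arcs. -/
def EvenNearlyConservative (I : Inst) : Prop :=
  IsDigraph I ∧ ∀ C, IsCycle I.2 C → weight C < 0 → Even C.length

/-- The digraph is symmetric: with every arc it contains the opposite arc. -/
def IsSymmetric (I : Inst) : Prop := ∀ a ∈ I.2, ∃ b ∈ I.2, b.1 = (a.1.2, a.1.1)

/-- All weights are integers of absolute value at most twice the number of the vertices. -/
def SmallIntegers (I : Inst) : Prop :=
  ∀ a ∈ I.2, ∃ z : ℤ, a.2 = z ∧ |z| ≤ 2 * (I.1.length : ℤ)

end Pool.Agent.R544.EN
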