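import Pool.Agent.R544.EN.Defs
import Pool.Agent.R544.RatUtil
import Pool.Agent.R544.Util2
import Pool.Agent.H679R2.Oct.Pol
import Pool.Agent.H679R2.Oct.Mem

/-!
# Even-nearly conservative arc weights: the reduction from Hamiltonian cycles
-/

set_option autoImplicit false

namespace Pool.Agent.R544.EN

open Pool.Agent.NPC Pool.Agent.NPC.H679 Pool.Agent.H679R2

/-- A graph. -/
abbrev GI : Type := List ℕ × List (ℕ × ℕ)

/-- The vertices. -/
def vd (I : GI) : List ℕ := I.1.dedup

/-- The special vertex. -/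
def sp (I : GI) : ℕ := I.1.head?.getD 0

/-- The middle vertex of the subdivided arc. -/
def mid (u v : ℕ) : ℕ := 2 * ((u + v) * (u + v) + u) + 1

theorem mid_inj {u v u' v' : ℕ} (h : mid u v = mid u' v') : u = u' ∧ v = v' := by
  unfold mid at h
  have h1 : (u + v) * (u + v) + u = (u' + v') * (u' + v') + u' := by omega
  have h2 : u + v = u' + v' := by
    rcases lt_trichotomy (u + v) (u' + v') with h | h | h
    · exfalso
      have : (u + v + 1) * (u + v + 1) ≤ (u' + v') * (u' + v') := Nat.mul_le_mul h h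
      nlinarith
    · exact h
    · exfalso
      have : (u' + v' + 1) * (u' + v' + 1) ≤ (u + v) * (u + v) := Nat.mul_le_mul h h
      nlinarith
  rw [h2] at h1
  omega

theorem mid_odd (u v : ℕ) : mid u v % 2 = 1 := by unfold mid; omega

/-- The ordered pairs of adjacent vertices. -/
def prs (I : GI) : List (ℕ × ℕ) := (vd I ×ˢ vd I).filter (fun p => adjb I p.1 p.2)

/-- The pairs with a first member different from the special vertex. -/
def prs1 (I : GI) : List (ℕ × ℕ) := (prs I).filter (fun p => decide (p.1 ≠ sp I))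

/-- The pairs with the special vertex as first member. -/
def prs2 (I : GI) : List (ℕ × ℕ) := (prs I).filter (fun p => decide (p.1 = sp I))

/-- The vertices of the digraph. -/
def rV (I : GI) : List ℕ :=
  (vd I).map (fun v => 2 * v) ++ (prs1 I).map (fun p => mid p.1 p.2)

/-- The weight of the arcs which are not used. -/
def wM (I : GI) : ℕ := 2 * (vd I).length

/-- The weight of the arcs leaving the special vertex. -/
def wW (I : GI) : ℕ := 2 * (vd I).length - 3

/-- The arcs of the digraph. -/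
def rA (I : GI) : List ((ℕ × ℕ) × ℚ) :=
  (prs1 I).flatMap (fun p => [((2 * p.1, mid p.1 p.2), -2), ((mid p.1 p.2, 2 * p.2), 0),
    ((mid p.1 p.2, 2 * p.1), ((wM I : ℕ) : ℚ)), ((2 * p.2, mid p.1 p.2), ((wM I : ℕ) : ℚ))]) ++
  (prs2 I).flatMap (fun p => [((2 * p.1, 2 * p.2), ((wW I : ℕ) : ℚ)),
    ((2 * p.2, 2 * p.1), ((wM I : ℕ) : ℚ))])

/-- The weighted digraph. -/
def red (I : GI) : Inst := if (vd I).length < 3 then ([], []) else (rV I, rA I)

/-! ### Polynomial time -/

theorem poly_vd : NPC.Poly vd := by unfold vd; fun_prop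

theorem poly_sp : NPC.Poly sp := by unfold sp; fun_prop

theorem poly_prs : NPC.Poly prs := by
  unfold prs
  have h := poly_vd
  refine NPC.Poly.filter (p := fun (I : GI) (p : ℕ × ℕ) => adjb I p.1 p.2) (by fun_prop) ?_
  exact adjb_poly (by fun_prop) (by fun_prop) (by fun_prop)

theorem poly_prs1 : NPC.Poly prs1 := by
  unfold prs1
  have h := poly_prs
  have h' := poly_sp
  exact PP.filter (r := fun (I : GI) (p : ℕ × ℕ) => p.1 ≠ sp I) h
    (PP.ne (by fun_prop) (by fun_prop))

theorem poly_prs2 : NPC.Poly prs2 := by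
  unfold prs2
  have h := poly_prs
  have h' := poly_sp
  exact PP.filter (r := fun (I : GI) (p : ℕ × ℕ) => p.1 = sp I) h
    (PP.eq (by fun_prop) (by fun_prop))

theorem poly_mid {α : Type} [TEnc α] {u v : α → ℕ} (hu : NPC.Poly u) (hv : NPC.Poly v) :
    NPC.Poly (fun a => mid (u a) (v a)) := by
  unfold mid; fun_prop

attribute [fun_prop] poly_mid

theorem poly_rV : NPC.Poly rV := by
  unfold rV
  have h := poly_vd
  have h' := poly_prs1
  fun_prop

theorem poly_wM : NPC.Poly wM := by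
  unfold wM
  have h := poly_vd
  fun_prop

theorem poly_wW : NPC.Poly wW := by
  unfold wW
  have h := poly_vd
  fun_prop

theorem poly_rA : NPC.Poly rA := by
  unfold rA
  have h1 := poly_prs1
  have h2 := poly_prs2
  have h3 := poly_wM
  have h4 := poly_wW
  fun_prop

theorem poly_red : NPC.Poly red := by
  unfold red
  have h1 := poly_vd
  have h2 := poly_rV
  have h3 := poly_rA
  refine PP.ite (p := fun I : GI => (vd I).length < 3) (PP.lt (by fun_prop) (by fun_prop))
    (NPC.Poly.const _) (by fun_prop)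

/-! ### The digraph -/

theorem mem_vd {I : GI} {v : ℕ} : v ∈ vd I ↔ v ∈ I.1 := List.mem_dedup

theorem mem_prs {I : GI} {p : ℕ × ℕ} : p ∈ prs I ↔ p.1 ∈ I.1 ∧ p.2 ∈ I.1 ∧
    adjb I p.1 p.2 = true := by
  unfold prs
  rw [List.mem_filter, List.mem_product, mem_vd, mem_vd, and_assoc]

theorem mem_prs1 {I : GI} {p : ℕ × ℕ} : p ∈ prs1 I ↔ p ∈ prs I ∧ p.1 ≠ sp I := by
  unfold prs1; simp

theorem mem_prs2 {I : GI} {p : ℕ × ℕ} : p ∈ prs2 I ↔ p ∈ prs I ∧ p.1 = sp I := by
  unfold prs2; simp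

theorem adjb_ne {I : GI} {u v : ℕ} (h : adjb I u v = true) : u ≠ v := by
  simp only [adjb, Bool.and_eq_true, Bool.not_eq_true', decide_eq_false_iff_not] at h
  exact h.1

theorem nodup_prs (I : GI) : (prs I).Nodup :=
  ((List.nodup_dedup _).product (List.nodup_dedup _)).filter _

theorem mem_rA {I : GI} {a : (ℕ × ℕ) × ℚ} : a ∈ rA I ↔
    (∃ p ∈ prs1 I, a = ((2 * p.1, mid p.1 p.2), -2) ∨ a = ((mid p.1 p.2, 2 * p.2), 0) ∨
      a = ((mid p.1 p.2, 2 * p.1), ((wM I : ℕ) : ℚ)) ∨
      a = ((2 * p.2, mid p.1 p.2), ((wM I : ℕ) : ℚ))) ∨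
    (∃ p ∈ prs2 I, a = ((2 * p.1, 2 * p.2), ((wW I : ℕ) : ℚ)) ∨
      a = ((2 * p.2, 2 * p.1), ((wM I : ℕ) : ℚ))) := by
  unfold rA
  simp only [List.mem_append, List.mem_flatMap, List.mem_cons, List.not_mem_nil, or_false]

theorem nodup_rV (I : GI) : (rV I).Nodup := by
  unfold rV
  rw [List.nodup_append']
  refine ⟨(List.nodup_dedup _).map (fun a b h => by simpa using h),
    ((nodup_prs I).filter _).map (fun p q h => Prod.ext (mid_inj h).1 (mid_inj h).2), ?_⟩
  intro x hx hx'
  simp only [List.mem_map] at hx hx'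
  obtain ⟨v, _, rfl⟩ := hx
  obtain ⟨p, _, hp⟩ := hx'
  have := mid_odd p.1 p.2
  omega

theorem nodup_fst_rA (I : GI) : ((rA I).map Prod.fst).Nodup := by
  unfold rA
  simp only [List.map_append, List.map_flatMap, List.map_cons, List.map_nil]
  rw [List.nodup_append']
  refine ⟨?_, ?_, ?_⟩
  · rw [List.nodup_flatMap]
    refine ⟨fun p hp => ?_, ?_⟩
    · have h1 := adjb_ne (mem_prs.1 (mem_prs1.1 hp).1).2.2
      have h2 := mid_odd p.1 p.2
      simp only [List.nodup_cons, List.mem_cons, Prod.mk.injEq, List.not_mem_nil, or_false,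
        not_or, not_false_eq_true, List.nodup_nil, and_true]
      omega
    · refine List.Nodup.pairwise_of_forall_ne ((nodup_prs I).filter _) ?_
      intro p _ q _ hpq x hx hx'
      simp only [List.mem_cons, List.not_mem_nil, or_false] at hx hx'
      have h1 := mid_odd p.1 p.2
      have h2 := mid_odd q.1 q.2
      have h3 : mid p.1 p.2 ≠ mid q.1 q.2 := fun h =>
        hpq (Prod.ext (mid_inj h).1 (mid_inj h).2)
      rcases hx with rfl | rfl | rfl | rfl <;> rcases hx' with hx' | hx' | hx' | hx' <;>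
        simp only [Prod.mk.injEq] at hx' <;> omega
  · rw [List.nodup_flatMap]
    refine ⟨fun p hp => ?_, ?_⟩
    · have h1 := adjb_ne (mem_prs.1 (mem_prs2.1 hp).1).2.2
      simp only [List.nodup_cons, List.mem_cons, Prod.mk.injEq, List.not_mem_nil, or_false,
        not_false_eq_true, List.nodup_nil, and_true]
      omega
    · refine List.Nodup.pairwise_of_forall_ne ((nodup_prs I).filter _) ?_
      intro p hp q hq hpq x hx hx'
      have h1 := (mem_prs2.1 hp).2
      have h2 := (mem_prs2.1 hq).2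
      have h3 : p.2 ≠ q.2 := fun h => hpq (Prod.ext (h1.trans h2.symm) h)
      have h4 := adjb_ne (mem_prs.1 (mem_prs2.1 hp).1).2.2
      have h5 := adjb_ne (mem_prs.1 (mem_prs2.1 hq).1).2.2
      simp only [List.mem_cons, List.not_mem_nil, or_false] at hx hx'
      rcases hx with rfl | rfl <;> rcases hx' with hx' | hx' <;>
        simp only [Prod.mk.injEq] at hx' <;> omega
  · intro x hx hx'
    simp only [List.mem_flatMap, List.mem_cons, List.not_mem_nil, or_false] at hx hx'
    obtain ⟨p, _, hx⟩ := hx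
    obtain ⟨q, _, hx'⟩ := hx'
    have h1 := mid_odd p.1 p.2
    rcases hx with rfl | rfl | rfl | rfl <;> rcases hx' with hx' | hx' <;>
      simp only [Prod.mk.injEq] at hx' <;> omega

theorem mem_rV {I : GI} {x : ℕ} : x ∈ rV I ↔ (∃ v ∈ I.1, x = 2 * v) ∨
    ∃ p ∈ prs1 I, x = mid p.1 p.2 := by
  unfold rV
  simp only [List.mem_append, List.mem_map, mem_vd, eq_comm]

theorem isDigraph_r (I : GI) : IsDigraph (rV I, rA I) := by
  refine ⟨nodup_rV I, ?_, nodup_fst_rA I⟩
  intro a ha
  simp only at ha ⊢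
  rcases mem_rA.1 ha with ⟨p, hp, h⟩ | ⟨p, hp, h⟩
  · have h1 := mem_prs.1 (mem_prs1.1 hp).1
    have h2 := mid_odd p.1 p.2
    have e1 : 2 * p.1 ∈ rV I := mem_rV.2 (Or.inl ⟨_, h1.1, rfl⟩)
    have e2 : 2 * p.2 ∈ rV I := mem_rV.2 (Or.inl ⟨_, h1.2.1, rfl⟩)
    have e3 : mid p.1 p.2 ∈ rV I := mem_rV.2 (Or.inr ⟨_, hp, rfl⟩)
    rcases h with rfl | rfl | rfl | rfl
    · exact ⟨e1, e3, by simp only [ne_eq]; omega⟩
    · exact ⟨e3, e2, by simp only [ne_eq]; omega⟩
    · exact ⟨e3, e1, by simp only [ne_eq]; omega⟩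
    · exact ⟨e2, e3, by simp only [ne_eq]; omega⟩
  · have h1 := mem_prs.1 (mem_prs2.1 hp).1
    have h2 := adjb_ne h1.2.2
    have e1 : 2 * p.1 ∈ rV I := mem_rV.2 (Or.inl ⟨_, h1.1, rfl⟩)
    have e2 : 2 * p.2 ∈ rV I := mem_rV.2 (Or.inl ⟨_, h1.2.1, rfl⟩)
    rcases h with rfl | rfl
    · exact ⟨e1, e2, by simp only [ne_eq]; omega⟩
    · exact ⟨e2, e1, by simp only [ne_eq]; omega⟩

theorem isDigraph_red (I : GI) : IsDigraph (red I) := by
  unfold red
  split_ifs
  · exact ⟨by simp, by simp, by simp⟩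
  · exact isDigraph_r I

theorem isSymmetric_red (I : GI) : IsSymmetric (red I) := by
  unfold red
  split_ifs
  · intro a ha; simp at ha
  · intro a ha
    simp only at ha ⊢
    rcases mem_rA.1 ha with ⟨p, hp, h⟩ | ⟨p, hp, h⟩
    · rcases h with rfl | rfl | rfl | rfl
      · exact ⟨_, mem_rA.2 (Or.inl ⟨p, hp, Or.inr (Or.inr (Or.inl rfl))⟩), rfl⟩
      · exact ⟨_, mem_rA.2 (Or.inl ⟨p, hp, Or.inr (Or.inr (Or.inr rfl))⟩), rfl⟩
      · exact ⟨_, mem_rA.2 (Or.inl ⟨p, hp, Or.inl rfl⟩), rfl⟩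
      · exact ⟨_, mem_rA.2 (Or.inl ⟨p, hp, Or.inr (Or.inl rfl)⟩), rfl⟩
    · rcases h with rfl | rfl
      · exact ⟨_, mem_rA.2 (Or.inr ⟨p, hp, Or.inr rfl⟩), rfl⟩
      · exact ⟨_, mem_rA.2 (Or.inr ⟨p, hp, Or.inl rfl⟩), rfl⟩

theorem smallIntegers_red (I : GI) : SmallIntegers (red I) := by
  unfold red
  split_ifs with hn
  · intro a ha; simp at ha
  · have hlen : (vd I).length ≤ (rV I).length := by
      unfold rV; simp
    have hM : wM I = 2 * (vd I).length := rfl
    have hW : wW I = 2 * (vd I).length - 3 := rfl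
    intro a ha
    simp only at ha ⊢
    have key : ∀ n : ℕ, n ≤ 2 * (rV I).length → ∃ z : ℤ, ((n : ℕ) : ℚ) = z ∧
        |z| ≤ 2 * ((rV I).length : ℤ) := by
      intro n hn
      refine ⟨n, by simp, ?_⟩
      rw [abs_of_nonneg (by positivity)]
      exact_mod_cast hn
    rcases mem_rA.1 ha with ⟨p, hp, h⟩ | ⟨p, hp, h⟩
    · rcases h with rfl | rfl | rfl | rfl
      · refine ⟨-2, by simp, ?_⟩
        have : (1 : ℤ) ≤ ((rV I).length : ℤ) := by omega
        simp only [abs_neg, Nat.abs_ofNat]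
        omega
      · exact ⟨0, by simp, by simp⟩
      · exact key _ (by omega)
      · exact key _ (by omega)
    · rcases h with rfl | rfl
      · exact key _ (by omega)
      · exact key _ (by omega)

end Pool.Agent.R544.EN
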